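import Pool.Agent.H69.Unc.N1a
import Pool.Agent.H97.Unc.N2

/-!
# N3: the Galerkin solution of the Neumann problem on the box
-/

set_option autoImplicit false

open MeasureTheory Set
open scoped Pointwise

namespace Pool.Agent.H84.Unc.N3

open Pool.Agent.H84 Pool.Agent.H84.Unc

variable {n N : ℕ}

/-! ### Basic facts about the box and partial derivatives -/

theorem QQ_isCompact : IsCompact (QQ n) := isCompact_Icc

theorem QQ_measurableSet : MeasurableSet (QQ n) := measurableSet_Icc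

theorem QQ_convex : Convex ℝ (QQ n) := convex_Icc _ _

theorem QQ_integrableOn {g : (Fin n → ℝ) → ℝ} (hg : Continuous g) : IntegrableOn g (QQ n) :=
  hg.continuousOn.integrableOn_compact QQ_isCompact

theorem QQ_bound {g : (Fin n → ℝ) → ℝ} (hg : Continuous g) : ∃ A, 0 ≤ A ∧ ∀ x ∈ QQ n, |g x| ≤ A := by
  obtain ⟨A, hA⟩ := QQ_isCompact.exists_bound_of_continuousOn (f := g) hg.continuousOn
  exact ⟨max A 0, le_max_right _ _, fun x hx => le_trans (hA x hx) (le_max_left _ _)⟩

theorem pd_continuous {f : (Fin n → ℝ) → ℝ} (hf : ContDiff ℝ 1 f) (i : Fin n) :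
    Continuous (pd i f) :=
  (hf.continuous_fderiv (by norm_num)).clm_apply continuous_const

theorem pd_contDiff {f : (Fin n → ℝ) → ℝ} {m : ℕ} (hf : ContDiff ℝ (m + 1 : ℕ) f)
    (i : Fin n) : ContDiff ℝ m (pd i f) :=
  (hf.fderiv_right (m := m) (by norm_cast)).clm_apply contDiff_const

theorem gsq_nonneg (f : (Fin n → ℝ) → ℝ) (x : Fin n → ℝ) : 0 ≤ gsq f x :=
  Finset.sum_nonneg fun _ _ => sq_nonneg _

theorem gsq_continuous {f : (Fin n → ℝ) → ℝ} (hf : ContDiff ℝ 1 f) : Continuous (gsq f) := by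
  unfold gsq
  exact continuous_finsetSum _ fun i _ => (pd_continuous hf i).pow 2

theorem pd_add' {f g : (Fin n → ℝ) → ℝ} {x : Fin n → ℝ} (hf : DifferentiableAt ℝ f x)
    (hg : DifferentiableAt ℝ g x) (i : Fin n) :
    pd i (fun y => f y + g y) x = pd i f x + pd i g x := by
  unfold pd
  rw [fderiv_fun_add hf hg]; rfl

theorem pd_sub' {f g : (Fin n → ℝ) → ℝ} {x : Fin n → ℝ} (hf : DifferentiableAt ℝ f x)
    (hg : DifferentiableAt ℝ g x) (i : Fin n) :
    pd i (fun y => f y - g y) x = pd i f x - pd i g x := by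
  unfold pd
  rw [fderiv_fun_sub hf hg]; rfl

theorem pd_mul' {f g : (Fin n → ℝ) → ℝ} {x : Fin n → ℝ} (hf : DifferentiableAt ℝ f x)
    (hg : DifferentiableAt ℝ g x) (i : Fin n) :
    pd i (fun y => f y * g y) x = pd i f x * g x + f x * pd i g x := by
  unfold pd
  rw [fderiv_fun_mul hf hg]
  simp only [add_apply, smul_apply, smul_eq_mul]
  ring

theorem pd_const_mul' {f : (Fin n → ℝ) → ℝ} {x : Fin n → ℝ} (c : ℝ)
    (hf : DifferentiableAt ℝ f x) (i : Fin n) :
    pd i (fun y => c * f y) x = c * pd i f x := by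
  unfold pd
  rw [fderiv_const_mul hf]; rfl

theorem pd_const' (c : ℝ) (i : Fin n) (x : Fin n → ℝ) : pd i (fun _ => c) x = 0 := by
  unfold pd
  simp

theorem pd_sum' {ι : Type*} (s : Finset ι) {f : ι → (Fin n → ℝ) → ℝ} {x : Fin n → ℝ}
    (hf : ∀ k ∈ s, DifferentiableAt ℝ (f k) x) (i : Fin n) :
    pd i (fun y => ∑ k ∈ s, f k y) x = ∑ k ∈ s, pd i (f k) x := by
  unfold pd
  rw [fderiv_fun_sum hf]
  simp

theorem fderiv_eq_sum {f : (Fin n → ℝ) → ℝ} (x v : Fin n → ℝ) :
    fderiv ℝ f x v = ∑ i, v i * pd i f x := by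
  have h : v = ∑ i, v i • (Pi.single i (1:ℝ) : Fin n → ℝ) := by
    ext j; simp [Finset.sum_apply, Pi.single_apply]
  conv_lhs => rw [h]
  simp [pd, map_sum]

/-! ### Weighted integrals -/

theorem exp_cont {U : (Fin n → ℝ) → ℝ} (hU : Continuous U) :
    Continuous fun x => Real.exp (-U x) := Real.continuous_exp.comp hU.neg

theorem wint {U g : (Fin n → ℝ) → ℝ} (hU : Continuous U) (hg : Continuous g) :
    IntegrableOn (fun x => g x * Real.exp (-U x)) (QQ n) :=
  QQ_integrableOn (hg.mul (exp_cont hU))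

theorem wint_add {U f g : (Fin n → ℝ) → ℝ} (hU : Continuous U) (hf : Continuous f)
    (hg : Continuous g) :
    ∫ x in QQ n, (f x + g x) * Real.exp (-U x) =
      (∫ x in QQ n, f x * Real.exp (-U x)) + ∫ x in QQ n, g x * Real.exp (-U x) := by
  rw [← integral_add (wint hU hf) (wint hU hg)]
  exact integral_congr_ae (ae_of_all _ fun x => by simp only; ring)

theorem wint_sub {U f g : (Fin n → ℝ) → ℝ} (hU : Continuous U) (hf : Continuous f)
    (hg : Continuous g) :
    ∫ x in QQ n, (f x - g x) * Real.exp (-U x) =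
      (∫ x in QQ n, f x * Real.exp (-U x)) - ∫ x in QQ n, g x * Real.exp (-U x) := by
  rw [← integral_sub (wint hU hf) (wint hU hg)]
  exact integral_congr_ae (ae_of_all _ fun x => by simp only; ring)

theorem wint_smul {U : (Fin n → ℝ) → ℝ} (c : ℝ) (f : (Fin n → ℝ) → ℝ) :
    ∫ x in QQ n, (c * f x) * Real.exp (-U x) = c * ∫ x in QQ n, f x * Real.exp (-U x) := by
  rw [← integral_const_mul]
  exact integral_congr_ae (ae_of_all _ fun x => by simp only; ring)

theorem wint_mono {U f g : (Fin n → ℝ) → ℝ} (hU : Continuous U) (hf : Continuous f)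
    (hg : Continuous g) (h : ∀ x ∈ QQ n, f x ≤ g x) :
    ∫ x in QQ n, f x * Real.exp (-U x) ≤ ∫ x in QQ n, g x * Real.exp (-U x) :=
  setIntegral_mono_on (wint hU hf) (wint hU hg) QQ_measurableSet fun x hx =>
    mul_le_mul_of_nonneg_right (h x hx) (Real.exp_pos _).le

theorem wint_nonneg {U f : (Fin n → ℝ) → ℝ} (h : ∀ x, 0 ≤ f x) :
    0 ≤ ∫ x in QQ n, f x * Real.exp (-U x) :=
  integral_nonneg fun x => mul_nonneg (h x) (Real.exp_pos _).le

/-- Cauchy-Schwarz for the weighted integral, in the form `2 ∫ f g w ≤ a ∫ f² w + a⁻¹ ∫ g² w`. -/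
theorem wint_cs {U f g : (Fin n → ℝ) → ℝ} (hU : Continuous U) (hf : Continuous f)
    (hg : Continuous g) :
    (∫ x in QQ n, (f x * g x) * Real.exp (-U x)) ^ 2 ≤
      (∫ x in QQ n, f x ^ 2 * Real.exp (-U x)) * ∫ x in QQ n, g x ^ 2 * Real.exp (-U x) := by
  set A := ∫ x in QQ n, f x ^ 2 * Real.exp (-U x) with hA
  set B := ∫ x in QQ n, g x ^ 2 * Real.exp (-U x) with hB
  set P := ∫ x in QQ n, (f x * g x) * Real.exp (-U x) with hP
  have h : ∀ s : ℝ, 0 ≤ A * (s * s) + 2 * P * s + B := by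
    intro s
    have h1 : 0 ≤ ∫ x in QQ n, ((s * f x + g x) ^ 2) * Real.exp (-U x) :=
      wint_nonneg fun x => sq_nonneg _
    have h2 : ∫ x in QQ n, ((s * f x + g x) ^ 2) * Real.exp (-U x) =
        s ^ 2 * A + 2 * s * P + B := by
      have e : ∀ x, ((s * f x + g x) ^ 2) * Real.exp (-U x) =
          ((s ^ 2 * f x ^ 2 + 2 * s * (f x * g x)) + g x ^ 2) * Real.exp (-U x) := fun x => by ring
      simp_rw [e]
      rw [wint_add hU (by fun_prop) (by fun_prop), wint_add hU (by fun_prop) (by fun_prop),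
        wint_smul, wint_smul]
    rw [h2] at h1
    nlinarith [h1]
  have h3 := discrim_le_zero h
  unfold discrim at h3
  nlinarith [h3]

theorem wint_pos (n : ℕ) {U : (Fin n → ℝ) → ℝ} (hU : Continuous U) :
    0 < ∫ x in QQ n, Real.exp (-U x) := by
  have hv : 0 < volume (QQ n) := by
    unfold QQ
    rw [Real.volume_Icc_pi]
    simp only [Pi.zero_apply, sub_zero, Finset.prod_const, Finset.card_univ, Fintype.card_fin]
    exact ENNReal.pow_pos (ENNReal.ofReal_pos.2 Real.pi_pos) _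
  rw [integral_pos_iff_support_of_nonneg (fun x => (Real.exp_pos _).le)
    (QQ_integrableOn (exp_cont hU))]
  have : Function.support (fun x => Real.exp (-U x)) = univ := by
    ext x; simp [(Real.exp_pos _).ne']
  rw [this, Measure.restrict_apply MeasurableSet.univ, univ_inter]
  exact hv

theorem eq_zero_of_wint {U g : (Fin n → ℝ) → ℝ} (hU : Continuous U) (hg : Continuous g)
    (h0 : ∀ x, 0 ≤ g x) (h : ∫ x in QQ n, g x * Real.exp (-U x) = 0) :
    ∀ x ∈ QQ n, g x = 0 := by
  have h1 : (fun x => g x * Real.exp (-U x)) =ᵐ[volume.restrict (QQ n)] 0 :=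
    (integral_eq_zero_iff_of_nonneg (fun x => mul_nonneg (h0 x) (Real.exp_pos _).le)
      (wint hU hg)).1 h
  have hint : interior (QQ n) = Set.pi univ fun _ => Ioo 0 Real.pi := by
    unfold QQ
    rw [← Set.pi_univ_Icc, interior_pi_set Set.finite_univ]
    simp
  have hne : (interior (QQ n)).Nonempty := by
    rw [hint]
    exact ⟨fun _ => Real.pi / 2, fun i _ => ⟨by positivity, by simp [Real.pi_pos]⟩⟩
  have h2 : ∀ x ∈ interior (QQ n), g x = 0 := by
    intro x hx
    by_contra hne'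
    have hpos : 0 < g x := lt_of_le_of_ne (h0 x) (Ne.symm hne')
    have hop : IsOpen (interior (QQ n) ∩ {y | 0 < g y}) :=
      isOpen_interior.inter (isOpen_lt continuous_const hg)
    have hmeas : volume (interior (QQ n) ∩ {y | 0 < g y}) = 0 := by
      have h3 : ∀ᵐ y ∂volume.restrict (QQ n), g y * Real.exp (-U y) = 0 := h1
      rw [ae_restrict_iff' QQ_measurableSet] at h3
      refine measure_mono_null ?_ (ae_iff.1 h3)
      rintro y ⟨hy1, hy2⟩
      intro hc
      exact (mul_pos hy2 (Real.exp_pos _)).ne' (hc (interior_subset hy1))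
    exact (hop.measure_pos volume ⟨x, hx, hpos⟩).ne' hmeas
  have hcl : QQ n ⊆ closure (interior (QQ n)) := by
    rw [QQ_convex.closure_interior_eq_closure_of_nonempty_interior hne]
    exact subset_closure
  have hset : IsClosed {x | g x = 0} := isClosed_eq hg continuous_const
  intro x hx
  exact (closure_minimal (fun y hy => h2 y hy) hset) (hcl hx)

/-- Vanishing gradient on the box implies constancy. -/
theorem eq_of_gsq {u : (Fin n → ℝ) → ℝ} (hu : ContDiff ℝ 1 u) (h : ∀ x ∈ QQ n, gsq u x = 0)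
    {x y : Fin n → ℝ} (hx : x ∈ QQ n) (hy : y ∈ QQ n) : u y = u x := by
  have hf : ∀ z ∈ QQ n, ‖fderiv ℝ u z‖ ≤ 0 := by
    intro z hz
    have h0 : ∀ i, pd i u z = 0 := by
      intro i
      have := (Finset.sum_eq_zero_iff_of_nonneg (fun i _ => sq_nonneg (pd i u z))).1 (h z hz) i
        (Finset.mem_univ i)
      exact pow_eq_zero_iff (two_ne_zero) |>.1 this
    have : fderiv ℝ u z = 0 := by
      ext v
      rw [fderiv_eq_sum]
      simp [h0]
    simp [this]
  have := (QQ_convex (n := n)).norm_image_sub_le_of_norm_fderiv_le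
    (fun z _ => hu.differentiable (by norm_num) z) hf hx hy
  simpa [sub_eq_zero] using this

/-! ### The Galerkin equation -/

/-- The bilinear form. -/
noncomputable def bil (U u p : (Fin n → ℝ) → ℝ) : ℝ :=
  (∫ x in QQ n, (∑ i, pd i u x * pd i p x) * Real.exp (-U x)) +
    (∫ x in QQ n, u x * Real.exp (-U x)) * ∫ x in QQ n, p x * Real.exp (-U x)

theorem gg_cont {u p : (Fin n → ℝ) → ℝ} (hu : ContDiff ℝ 1 u) (hp : ContDiff ℝ 1 p) :
    Continuous fun x => ∑ i, pd i u x * pd i p x :=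
  continuous_finsetSum _ fun i _ => (pd_continuous hu i).mul (pd_continuous hp i)

theorem bil_add_left {U u v p : (Fin n → ℝ) → ℝ} (hU : Continuous U) (hu : ContDiff ℝ 1 u)
    (hv : ContDiff ℝ 1 v) (hp : ContDiff ℝ 1 p) :
    bil U (fun x => u x + v x) p = bil U u p + bil U v p := by
  unfold bil
  have e : ∀ x, (∑ i, pd i (fun x => u x + v x) x * pd i p x) =
      (∑ i, pd i u x * pd i p x) + ∑ i, pd i v x * pd i p x := by
    intro x
    rw [← Finset.sum_add_distrib]
    refine Finset.sum_congr rfl fun i _ => ?_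
    rw [pd_add' (hu.differentiable (by norm_num) x) (hv.differentiable (by norm_num) x)]
    ring
  simp_rw [e]
  rw [wint_add hU (gg_cont hu hp) (gg_cont hv hp), wint_add hU hu.continuous hv.continuous]
  ring

theorem bil_smul_left {U u p : (Fin n → ℝ) → ℝ} (c : ℝ) (hu : ContDiff ℝ 1 u) :
    bil U (fun x => c * u x) p = c * bil U u p := by
  unfold bil
  have e : ∀ x, (∑ i, pd i (fun x => c * u x) x * pd i p x) =
      c * (∑ i, pd i u x * pd i p x) := by
    intro x
    rw [Finset.mul_sum]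
    refine Finset.sum_congr rfl fun i _ => ?_
    rw [pd_const_mul' c (hu.differentiable (by norm_num) x)]
    ring
  simp_rw [e]
  rw [wint_smul, wint_smul]
  ring

theorem bil_comm (U u p : (Fin n → ℝ) → ℝ) : bil U u p = bil U p u := by
  unfold bil
  have e : ∀ x, (∑ i, pd i u x * pd i p x) = ∑ i, pd i p x * pd i u x := fun x =>
    Finset.sum_congr rfl fun i _ => mul_comm _ _
  simp_rw [e]
  ring

theorem VV_cd1 {f : (Fin n → ℝ) → ℝ} (hf : f ∈ VV n N) : ContDiff ℝ 1 f := by
  have := VV_contDiff hf 1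
  exact_mod_cast this

/-- The linear map of the Galerkin equation. -/
noncomputable def TT (N : ℕ) {U : (Fin n → ℝ) → ℝ} (hU : Continuous U) :
    VV n N →ₗ[ℝ] VV n N →ₗ[ℝ] ℝ :=
  LinearMap.mk₂ ℝ (fun u p => bil U u.1 p.1)
    (fun u v p => bil_add_left hU (VV_cd1 u.2) (VV_cd1 v.2) (VV_cd1 p.2))
    (fun c u p => bil_smul_left c (VV_cd1 u.2))
    (fun u v p => by
      rw [bil_comm, bil_comm U u.1 v.1, bil_comm U u.1 p.1]
      exact bil_add_left hU (VV_cd1 v.2) (VV_cd1 p.2) (VV_cd1 u.2))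
    (fun c u p => by
      rw [bil_comm, bil_comm U u.1 p.1]
      exact bil_smul_left c (VV_cd1 p.2))

theorem TT_apply (N : ℕ) {U : (Fin n → ℝ) → ℝ} (hU : Continuous U) (u p : VV n N) :
    TT N hU u p = bil U u.1 p.1 := rfl

theorem TT_injective (N : ℕ) {U : (Fin n → ℝ) → ℝ} (hU : Continuous U) :
    Function.Injective (TT N hU) := by
  rw [← LinearMap.ker_eq_bot, LinearMap.ker_eq_bot']
  intro u hu
  have h0 : bil U u.1 u.1 = 0 := by rw [← TT_apply N hU, hu]; rfl
  have hcd := VV_cd1 u.2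
  have e : ∀ x, (∑ i, pd i u.1 x * pd i u.1 x) = gsq u.1 x := fun x =>
    Finset.sum_congr rfl fun i _ => (sq _).symm
  unfold bil at h0
  simp_rw [e] at h0
  have h1 : 0 ≤ ∫ x in QQ n, gsq u.1 x * Real.exp (-U x) := wint_nonneg (gsq_nonneg _)
  have h2 : ∫ x in QQ n, gsq u.1 x * Real.exp (-U x) = 0 := by nlinarith
  have h3 : ∫ x in QQ n, u.1 x * Real.exp (-U x) = 0 := by nlinarith
  have h4 := eq_zero_of_wint hU (gsq_continuous hcd) (gsq_nonneg _) h2
  have hz : (0 : Fin n → ℝ) ∈ QQ n := ⟨le_refl _, fun _ => Real.pi_pos.le⟩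
  have h5 : ∀ x ∈ QQ n, u.1 x = u.1 0 := fun x hx => eq_of_gsq hcd h4 hz hx
  have h6 : ∫ x in QQ n, u.1 x * Real.exp (-U x) = u.1 0 * ∫ x in QQ n, Real.exp (-U x) := by
    rw [← integral_const_mul]
    refine setIntegral_congr_fun QQ_measurableSet fun x hx => ?_
    show u.1 x * Real.exp (-U x) = u.1 0 * Real.exp (-U x)
    rw [h5 x hx]
  rw [h6] at h3
  have h7 : u.1 0 = 0 := by
    rcases mul_eq_zero.1 h3 with h | h
    · exact h
    · exact absurd h (wint_pos n hU).ne'
  have h8 : u.1 = 0 := VV_eq_zero u.2 fun x hx => by rw [h5 x hx, h7]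
  exact Subtype.ext h8

/-- Solution of the Galerkin equation. -/
theorem exists_bil (N : ℕ) {U f : (Fin n → ℝ) → ℝ} (hU : Continuous U) (hf : Continuous f) :
    ∃ u ∈ VV n N, ∀ p ∈ VV n N, bil U u p = ∫ x in QQ n, f x * p x * Real.exp (-U x) := by
  have : FiniteDimensional ℝ (VV n N) := VV_finite
  have hs : Function.Surjective (TT N hU) := by
    refine (LinearMap.injective_iff_surjective_of_finrank_eq_finrank ?_).1 (TT_injective N hU)
    exact (Subspace.dual_finrank_eq (K := ℝ) (V := VV n N)).symm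
  have hc : ∀ p : VV n N, Continuous p.1 := fun p => (VV_cd1 p.2).continuous
  let φ : VV n N →ₗ[ℝ] ℝ :=
    { toFun := fun p => ∫ x in QQ n, f x * p.1 x * Real.exp (-U x)
      map_add' := fun p q => by
        have h := wint_add (f := fun x => f x * p.1 x) (g := fun x => f x * q.1 x) hU
          (hf.mul (hc p)) (hf.mul (hc q))
        rw [← h]
        refine integral_congr_ae (ae_of_all _ fun x => ?_)
        simp only [Submodule.coe_add, Pi.add_apply]
        ring
      map_smul' := fun c p => by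
        simp only [RingHom.id_apply, smul_eq_mul]
        rw [← wint_smul]
        refine integral_congr_ae (ae_of_all _ fun x => ?_)
        simp only [Submodule.coe_smul, Pi.smul_apply, smul_eq_mul]
        ring }
  obtain ⟨u, hu⟩ := hs φ
  refine ⟨u.1, u.2, fun p hp => ?_⟩
  have := congrArg (fun L => L ⟨p, hp⟩) hu
  exact this

/-! ### The residual -/

theorem sq_sum_le (a : Fin n → ℝ) : (∑ i, |a i|) ^ 2 ≤ n * ∑ i, a i ^ 2 := by
  have h := sq_sum_le_card_mul_sum_sq (s := Finset.univ) (f := fun i => |a i|)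
  simpa [sq_abs] using h

theorem gsq_bound {U f : (Fin n → ℝ) → ℝ} (hU : ContDiff ℝ 2 U) (hf : ContDiff ℝ 1 f) :
    ∃ C, 0 ≤ C ∧ ∀ u : (Fin n → ℝ) → ℝ, ContDiff ℝ 2 u → ∀ x ∈ QQ n,
      gsq (fun y => (∑ i, pd i U y * pd i u y) - f y) x ≤
        C * ((gsq u x + ∑ i, gsq (pd i u) x) + 1) := by
  have hUd : ∀ i, ContDiff ℝ 1 (pd i U) := fun i => by
    have := pd_contDiff (m := 1) (f := U) (by exact_mod_cast hU) i
    exact_mod_cast this
  have hU1 : ContDiff ℝ 1 U := hU.of_le (by norm_num)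
  choose A1 hA1 hA1' using fun i => QQ_bound (pd_continuous hU1 i)
  choose A2 hA2 hA2' using fun i j => QQ_bound (pd_continuous (hUd i) j)
  choose A3 hA3 hA3' using fun i => QQ_bound (pd_continuous hf i)
  set A := (∑ i, A1 i) + (∑ i, ∑ j, A2 i j) + ∑ i, A3 i with hA
  have hS1 : 0 ≤ ∑ i, A1 i := Finset.sum_nonneg fun i _ => hA1 i
  have hS2 : 0 ≤ ∑ i, ∑ j, A2 i j := Finset.sum_nonneg fun i _ => Finset.sum_nonneg fun j _ =>
    hA2 i j
  have hS3 : 0 ≤ ∑ i, A3 i := Finset.sum_nonneg fun i _ => hA3 i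
  have hA0 : 0 ≤ A := by rw [hA]; positivity
  have k1 : ∀ i, A1 i ≤ A := fun i => by
    have := Finset.single_le_sum (fun i _ => hA1 i) (Finset.mem_univ i)
    linarith
  have k2 : ∀ i j, A2 i j ≤ A := fun i j => by
    have h1 := Finset.single_le_sum (fun j _ => hA2 i j) (Finset.mem_univ j)
    have h2 := Finset.single_le_sum (f := fun i => ∑ j, A2 i j)
      (fun i _ => Finset.sum_nonneg fun j _ => hA2 i j) (Finset.mem_univ i)
    linarith
  have k3 : ∀ i, A3 i ≤ A := fun i => by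
    have := Finset.single_le_sum (fun i _ => hA3 i) (Finset.mem_univ i)
    linarith
  refine ⟨3 * A ^ 2 * ((n:ℝ) + 1) ^ 2, by positivity, fun u hu x hx => ?_⟩
  have hud : ∀ i, ContDiff ℝ 1 (pd i u) := fun i => by
    have := pd_contDiff (m := 1) (f := u) (by exact_mod_cast hu) i
    exact_mod_cast this
  have hdU : ∀ i y, DifferentiableAt ℝ (pd i U) y := fun i y =>
    (hUd i).differentiable (by norm_num) y
  have hdu : ∀ i y, DifferentiableAt ℝ (pd i u) y := fun i y =>
    (hud i).differentiable (by norm_num) y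
  have e : ∀ j, pd j (fun y => (∑ i, pd i U y * pd i u y) - f y) x =
      (∑ i, (pd j (pd i U) x * pd i u x + pd i U x * pd j (pd i u) x)) - pd j f x := by
    intro j
    have hp : ∀ i ∈ Finset.univ, DifferentiableAt ℝ (fun y => pd i U y * pd i u y) x :=
      fun i _ => (hdU i x).mul (hdu i x)
    rw [pd_sub' (DifferentiableAt.fun_sum hp) (hf.differentiable (by norm_num) x), pd_sum' _ hp]
    congr 1
    exact Finset.sum_congr rfl fun i _ => pd_mul' (hdU i x) (hdu i x) j
  have b : ∀ j, (pd j (fun y => (∑ i, pd i U y * pd i u y) - f y) x) ^ 2 ≤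
      A ^ 2 * (3 * (n * gsq u x + n * (∑ i, (pd j (pd i u) x) ^ 2) + 1)) := by
    intro j
    rw [e]
    have b1 : |(∑ i, (pd j (pd i U) x * pd i u x + pd i U x * pd j (pd i u) x)) - pd j f x| ≤
        A * ((∑ i, |pd i u x|) + (∑ i, |pd j (pd i u) x|) + 1) := by
      have b2 : |∑ i, (pd j (pd i U) x * pd i u x + pd i U x * pd j (pd i u) x)| ≤
          ∑ i, (A * |pd i u x| + A * |pd j (pd i u) x|) := by
        refine (Finset.abs_sum_le_sum_abs _ _).trans (Finset.sum_le_sum fun i _ => ?_)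
        refine (abs_add_le _ _).trans (add_le_add ?_ ?_)
        · rw [abs_mul]
          exact mul_le_mul_of_nonneg_right ((hA2' i j x hx).trans (k2 i j)) (abs_nonneg _)
        · rw [abs_mul]
          exact mul_le_mul_of_nonneg_right ((hA1' i x hx).trans (k1 i)) (abs_nonneg _)
      have b3 : |pd j f x| ≤ A := (hA3' j x hx).trans (k3 j)
      have b5 : ∑ i, (A * |pd i u x| + A * |pd j (pd i u) x|) =
          A * (∑ i, |pd i u x|) + A * ∑ i, |pd j (pd i u) x| := by
        rw [Finset.sum_add_distrib, Finset.mul_sum, Finset.mul_sum]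
      refine (abs_sub _ _).trans ?_
      rw [b5] at b2
      linarith
    have b4 : ((∑ i, (pd j (pd i U) x * pd i u x + pd i U x * pd j (pd i u) x)) - pd j f x) ^ 2 ≤
        (A * ((∑ i, |pd i u x|) + (∑ i, |pd j (pd i u) x|) + 1)) ^ 2 := by
      rw [← sq_abs]
      exact pow_le_pow_left₀ (abs_nonneg _) b1 2
    refine b4.trans ?_
    rw [mul_pow]
    refine mul_le_mul_of_nonneg_left ?_ (sq_nonneg _)
    have c1 := sq_sum_le (fun i => pd i u x)
    have c2 := sq_sum_le (fun i => pd j (pd i u) x)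
    have c3 : gsq u x = ∑ i, (pd i u x) ^ 2 := rfl
    rw [← c3] at c1
    nlinarith [sq_nonneg ((∑ i, |pd i u x|) - ∑ i, |pd j (pd i u) x|),
      sq_nonneg ((∑ i, |pd i u x|) - 1), sq_nonneg ((∑ i, |pd j (pd i u) x|) - 1)]
  have hsum : ∑ j, ∑ i, (pd j (pd i u) x) ^ 2 = ∑ i, gsq (pd i u) x := by
    rw [Finset.sum_comm]
    rfl
  have htot : gsq (fun y => (∑ i, pd i U y * pd i u y) - f y) x ≤
      A ^ 2 * (3 * (n * (n * gsq u x) + n * (∑ i, gsq (pd i u) x) + n)) := by
    have := Finset.sum_le_sum (s := Finset.univ) fun j _ => b j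
    refine this.trans (le_of_eq ?_)
    simp only [← Finset.mul_sum, Finset.sum_add_distrib, Finset.sum_const, Finset.card_univ,
      Fintype.card_fin, nsmul_eq_mul, hsum, mul_one]
  refine htot.trans ?_
  have g1 := gsq_nonneg u x
  have g2 : 0 ≤ ∑ i, gsq (pd i u) x := Finset.sum_nonneg fun i _ => gsq_nonneg _ _
  have hn : (0:ℝ) ≤ n := Nat.cast_nonneg n
  have : (n * (n * gsq u x) + n * (∑ i, gsq (pd i u) x) + n) ≤
      ((n:ℝ) + 1) ^ 2 * ((gsq u x + ∑ i, gsq (pd i u) x) + 1) := by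
    nlinarith [mul_nonneg hn g1, mul_nonneg hn g2, mul_nonneg (mul_nonneg hn hn) g2,
      mul_nonneg hn hn]
  have hA2 : 0 ≤ 3 * A ^ 2 := by positivity
  calc A ^ 2 * (3 * (n * (n * gsq u x) + n * (∑ i, gsq (pd i u) x) + n))
      = 3 * A ^ 2 * (n * (n * gsq u x) + n * (∑ i, gsq (pd i u) x) + n) := by ring
    _ ≤ 3 * A ^ 2 * (((n:ℝ) + 1) ^ 2 * ((gsq u x + ∑ i, gsq (pd i u) x) + 1)) :=
        mul_le_mul_of_nonneg_left this hA2
    _ = _ := by ring

theorem LL_cont {U u : (Fin n → ℝ) → ℝ} (hU : ContDiff ℝ 1 U) (hu : ContDiff ℝ 2 u) :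
    Continuous (LL U u) := by
  have hud : ∀ i, ContDiff ℝ 1 (pd i u) := fun i => by
    have := pd_contDiff (m := 1) (f := u) (by exact_mod_cast hu) i
    exact_mod_cast this
  have hu1 : ContDiff ℝ 1 u := hu.of_le (by norm_num)
  unfold LL
  exact (continuous_finsetSum _ fun i _ => pd_continuous (hud i) i).sub
    (continuous_finsetSum _ fun i _ => (pd_continuous hU i).mul (pd_continuous hu1 i))

/-- The Hessian lower bound in the Bochner identity. -/
theorem bochner_ge {U u : (Fin n → ℝ) → ℝ} (hU : ContDiff ℝ 2 U) {t : ℝ}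
    (hH : HessGe U (fun _ _ => t)) (hu : ContDiff ℝ 3 u) (hN : Neum u) :
    (∫ x in QQ n, (∑ i, gsq (pd i u) x) * Real.exp (-U x)) +
      t * (∫ x in QQ n, gsq u x * Real.exp (-U x)) ≤
      ∫ x in QQ n, (LL U u x) ^ 2 * Real.exp (-U x) := by
  have hUd : ∀ i, ContDiff ℝ 1 (pd i U) := fun i => by
    have := pd_contDiff (m := 1) (f := U) (by exact_mod_cast hU) i
    exact_mod_cast this
  have hu1 : ContDiff ℝ 1 u := hu.of_le (by norm_num)
  rw [box_bochner hU hu hN, ← wint_smul]
  refine add_le_add le_rfl ?_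
  refine wint_mono hU.continuous ((gsq_continuous hu1).const_mul t) ?_ fun x hx => ?_
  · exact continuous_finsetSum _ fun i _ => continuous_finsetSum _ fun j _ =>
      ((pd_continuous (hUd j) i).mul (pd_continuous hu1 i)).mul (pd_continuous hu1 j)
  · have := hH x hx (fun i => pd i u x)
    rw [← Finset.mul_sum] at this
    exact this

/-- Jackson's inequality on the box, as a hypothesis. -/
def Jackson (n : ℕ) : Prop :=
  ∀ (h : (Fin n → ℝ) → ℝ), ContDiff ℝ 1 h → ∀ N : ℕ,
    ∃ q ∈ VV n N, ∫ x in QQ n, (h x - q x) ^ 2 ≤ (∫ x in QQ n, gsq h x) / ((N:ℝ) + 1) ^ 2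

theorem galerkin_of (jackson : Jackson n) {U f : (Fin n → ℝ) → ℝ} (hU : ContDiff ℝ 2 U) {t : ℝ}
    (ht : 0 < t)
    (hH : HessGe U (fun _ _ => t)) (hf : ContDiff ℝ 1 f)
    (hf0 : ∫ x in QQ n, f x * Real.exp (-U x) = 0) {ε : ℝ} (hε : 0 < ε) :
    ∃ (N : ℕ) (u : (Fin n → ℝ) → ℝ), u ∈ VV n N ∧ ∫ x in QQ n, u x * Real.exp (-U x) = 0 ∧
      ∫ x in QQ n, (LL U u x + f x) ^ 2 * Real.exp (-U x) ≤ ε := by
  have hUc := hU.continuous
  have hU1 : ContDiff ℝ 1 U := hU.of_le (by norm_num)
  have hUd : ∀ i, ContDiff ℝ 1 (pd i U) := fun i => by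
    have := pd_contDiff (m := 1) (f := U) (by exact_mod_cast hU) i
    exact_mod_cast this
  obtain ⟨C, hC0, hC⟩ := gsq_bound hU hf
  obtain ⟨B, hB0, hB⟩ := QQ_bound hUc
  have hw1 : ∀ x ∈ QQ n, Real.exp (-U x) ≤ Real.exp B := fun x hx =>
    Real.exp_le_exp.2 (by have := (abs_le.1 (hB x hx)).1; linarith)
  have hw2 : ∀ x ∈ QQ n, 1 ≤ Real.exp B * Real.exp (-U x) := fun x hx => by
    rw [← Real.exp_add]
    exact Real.one_le_exp (by have := (abs_le.1 (hB x hx)).2; linarith)
  set F := ∫ x in QQ n, f x ^ 2 * Real.exp (-U x) with hF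
  have hF0 : 0 ≤ F := wint_nonneg fun x => sq_nonneg _
  set w0 := ∫ x in QQ n, Real.exp (-U x) with hw0
  have hw0p : 0 < w0 := wint_pos n hUc
  set D := Real.exp B * Real.exp B * C with hD
  have hD0 : 0 ≤ D := by positivity
  set X := D * (2 * (1 + 1 / t)) with hX
  set Y := D * (2 * (1 + 1 / t) * F + w0) with hY
  have hX0 : 0 ≤ X := by positivity
  have hY0 : 0 ≤ Y := by positivity
  obtain ⟨N, hN⟩ := exists_nat_ge (X + Y / ε + 1)
  have hNN : X + Y / ε + 1 ≤ ((N:ℝ) + 1) ^ 2 := by nlinarith [(Nat.cast_nonneg N : (0:ℝ) ≤ N)]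
  obtain ⟨u, huV, hu⟩ := exists_bil N hUc hf.continuous
  have hu3 : ContDiff ℝ 3 u := by exact_mod_cast VV_contDiff huV 3
  have hu2 : ContDiff ℝ 2 u := by exact_mod_cast VV_contDiff huV 2
  have hu1 : ContDiff ℝ 1 u := VV_cd1 huV
  have huN : Neum u := VV_neum huV
  have hud : ∀ i, ContDiff ℝ 1 (pd i u) := fun i => by
    have := pd_contDiff (m := 1) (f := u) (by exact_mod_cast hu2) i
    exact_mod_cast this
  -- the mean of u
  have hmean : ∫ x in QQ n, u x * Real.exp (-U x) = 0 := by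
    have h := hu (fun _ => 1) (VV_const 1)
    unfold bil at h
    simp only [pd_const', mul_zero, Finset.sum_const_zero, zero_mul, integral_zero, zero_add,
      one_mul, mul_one] at h
    rw [hf0] at h
    rcases mul_eq_zero.1 h with h | h
    · exact h
    · exact absurd h hw0p.ne'
  refine ⟨N, u, huV, hmean, ?_⟩
  have hLc := LL_cont hU1 hu2
  have hRc : Continuous fun x => LL U u x + f x := hLc.add hf.continuous
  set I := ∫ x in QQ n, (LL U u x + f x) ^ 2 * Real.exp (-U x) with hI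
  have hI0 : 0 ≤ I := wint_nonneg fun x => sq_nonneg _
  -- orthogonality of the residual
  have horth : ∀ p ∈ VV n N, ∫ x in QQ n, (LL U u x + f x) * p x * Real.exp (-U x) = 0 := by
    intro p hp
    have hp1 := VV_cd1 hp
    have h1 := hu p hp
    have h2 := box_green hU1 hu2 huN hp1
    unfold bil at h1
    rw [hmean, zero_mul, add_zero] at h1
    have e : ∀ x, (LL U u x + f x) * p x * Real.exp (-U x) =
        (LL U u x * p x + f x * p x) * Real.exp (-U x) := fun x => by ring
    simp_rw [e]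
    rw [wint_add (f := fun x => LL U u x * p x) (g := fun x => f x * p x) hUc
      (hLc.mul hp1.continuous) (hf.continuous.mul hp1.continuous), h2, h1]
    ring
  -- the function h
  set h : (Fin n → ℝ) → ℝ := fun y => (∑ i, pd i U y * pd i u y) - f y with hh
  have hh1 : ContDiff ℝ 1 h := (ContDiff.sum fun i _ => (hUd i).mul (hud i)).sub hf
  obtain ⟨q, hqV, hq⟩ := jackson h hh1 N
  have hq1 := VV_cd1 hqV
  have hlap := VV_lap huV
  have hR : ∀ x, LL U u x + f x = (∑ i, pd i (pd i u) x) - h x := fun x => by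
    simp only [LL, hh]; ring
  have hlc : Continuous fun x => ∑ i, pd i (pd i u) x :=
    continuous_finsetSum _ fun i _ => pd_continuous (hud i) i
  -- I ≤ J
  set J := ∫ x in QQ n, (h x - q x) ^ 2 * Real.exp (-U x) with hJ
  have hJ0 : 0 ≤ J := wint_nonneg fun x => sq_nonneg _
  have hIJ : I ≤ J := by
    have h1 : I = - ∫ x in QQ n, ((LL U u x + f x) * (h x - q x)) * Real.exp (-U x) := by
      have h2 := horth (fun x => (∑ i, pd i (pd i u) x) - q x) ((VV n N).sub_mem hlap hqV)
      have e : ∀ x, (LL U u x + f x) ^ 2 * Real.exp (-U x) =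
          ((LL U u x + f x) * ((∑ i, pd i (pd i u) x) - q x) -
            (LL U u x + f x) * (h x - q x)) * Real.exp (-U x) := fun x => by
        have := hR x
        have e2 : (LL U u x + f x) ^ 2 = (LL U u x + f x) * ((∑ i, pd i (pd i u) x) - h x) := by
          rw [← this]; ring
        rw [e2]; ring
      rw [hI]
      simp_rw [e]
      rw [wint_sub (f := fun x => (LL U u x + f x) * ((∑ i, pd i (pd i u) x) - q x))
        (g := fun x => (LL U u x + f x) * (h x - q x)) hUc (hRc.mul (hlc.sub hq1.continuous))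
        (hRc.mul (hh1.continuous.sub hq1.continuous)), h2]
      ring
    have h2 := wint_cs hUc hRc (hh1.continuous.sub hq1.continuous)
    have h3 : I ^ 2 ≤ I * J := by
      rw [show I ^ 2 = (∫ x in QQ n, ((LL U u x + f x) * (h x - q x)) * Real.exp (-U x)) ^ 2 by
        rw [h1]; ring]
      exact h2
    rcases hI0.eq_or_lt with h0 | h0
    · rw [← h0]; exact hJ0
    · nlinarith
  -- Jackson
  have hJ1 : J ≤ Real.exp B * ((∫ x in QQ n, gsq h x) / ((N:ℝ) + 1) ^ 2) := by
    refine le_trans ?_ (mul_le_mul_of_nonneg_left hq (Real.exp_pos _).le)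
    rw [← integral_const_mul]
    refine setIntegral_mono_on
      (wint hUc ((hh1.continuous.sub hq1.continuous).pow 2))
      (QQ_integrableOn (((hh1.continuous.sub hq1.continuous).pow 2).const_mul _))
      QQ_measurableSet fun x hx => ?_
    rw [mul_comm]
    exact mul_le_mul_of_nonneg_right (hw1 x hx) (sq_nonneg _)
  set G1 := ∫ x in QQ n, gsq u x * Real.exp (-U x) with hG1
  set G2 := ∫ x in QQ n, (∑ i, gsq (pd i u) x) * Real.exp (-U x) with hG2
  have hG1c := gsq_continuous hu1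
  have hG2c : Continuous fun x => ∑ i, gsq (pd i u) x :=
    continuous_finsetSum _ fun i _ => gsq_continuous (hud i)
  have hG10 : 0 ≤ G1 := wint_nonneg (gsq_nonneg _)
  have hG20 : 0 ≤ G2 := wint_nonneg fun x => Finset.sum_nonneg fun i _ => gsq_nonneg _ _
  have hgh : ∫ x in QQ n, gsq h x ≤ Real.exp B * C * (G1 + G2 + w0) := by
    have h1 : ∫ x in QQ n, gsq h x ≤
        ∫ x in QQ n, (Real.exp B * C * ((gsq u x + ∑ i, gsq (pd i u) x) + 1)) *
          Real.exp (-U x) := by
      refine setIntegral_mono_on (QQ_integrableOn (gsq_continuous hh1))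
        (wint hUc (((hG1c.add hG2c).add continuous_const).const_mul _)) QQ_measurableSet
        fun x hx => ?_
      have h2 := hC u hu2 x hx
      have h3 : 0 ≤ C * ((gsq u x + ∑ i, gsq (pd i u) x) + 1) :=
        mul_nonneg hC0 (by
          have := gsq_nonneg u x
          have : 0 ≤ ∑ i, gsq (pd i u) x := Finset.sum_nonneg fun i _ => gsq_nonneg _ _
          linarith)
      calc gsq h x ≤ C * ((gsq u x + ∑ i, gsq (pd i u) x) + 1) := h2
        _ ≤ C * ((gsq u x + ∑ i, gsq (pd i u) x) + 1) * (Real.exp B * Real.exp (-U x)) :=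
            le_mul_of_one_le_right h3 (hw2 x hx)
        _ = _ := by ring
    refine h1.trans (le_of_eq ?_)
    rw [wint_smul, wint_add (f := fun x => gsq u x + ∑ i, gsq (pd i u) x) (g := fun _ => 1) hUc
      (hG1c.add hG2c) continuous_const, wint_add hUc hG1c hG2c]
    simp only [one_mul]
    rfl
  -- Bochner
  have hbo := bochner_ge hU hH hu3 huN
  set L0 := ∫ x in QQ n, (LL U u x) ^ 2 * Real.exp (-U x) with hL0
  have hL00 : 0 ≤ L0 := wint_nonneg fun x => sq_nonneg _
  have hL : L0 ≤ 2 * I + 2 * F := by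
    rw [hI, hF, hL0, ← wint_smul, ← wint_smul, ← wint_add
      (f := fun x => 2 * (LL U u x + f x) ^ 2) (g := fun x => 2 * f x ^ 2) hUc
      ((hRc.pow 2).const_mul 2) ((hf.continuous.pow 2).const_mul 2)]
    refine wint_mono hUc (hLc.pow 2)
      (((hRc.pow 2).const_mul 2).add ((hf.continuous.pow 2).const_mul 2)) fun x _ => ?_
    nlinarith [sq_nonneg (LL U u x + 2 * f x)]
  have hbo' : G2 + t * G1 ≤ L0 := hbo
  have hG12 : G1 + G2 ≤ (1 + 1 / t) * L0 := by
    have h1 : t * G1 ≤ L0 := by linarith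
    have h2 : G1 ≤ L0 / t := by rw [le_div_iff₀ ht]; linarith
    have h3 : G2 ≤ L0 := by nlinarith
    have : (1 + 1 / t) * L0 = L0 + L0 / t := by ring
    linarith
  -- conclusion
  have hN2 : (0:ℝ) < ((N:ℝ) + 1) ^ 2 := by positivity
  have hfin : ((N:ℝ) + 1) ^ 2 * I ≤ X * I + Y := by
    have h1 : I ≤ Real.exp B * ((∫ x in QQ n, gsq h x) / ((N:ℝ) + 1) ^ 2) := hIJ.trans hJ1
    have h2 : ((N:ℝ) + 1) ^ 2 * I ≤ Real.exp B * ∫ x in QQ n, gsq h x := by
      have := mul_le_mul_of_nonneg_left h1 hN2.le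
      refine this.trans (le_of_eq ?_)
      field_simp
    have h3 : Real.exp B * ∫ x in QQ n, gsq h x ≤ D * (G1 + G2 + w0) := by
      have := mul_le_mul_of_nonneg_left hgh (Real.exp_pos B).le
      refine this.trans (le_of_eq ?_)
      rw [hD]; ring
    have h4 : D * (G1 + G2 + w0) ≤ D * ((1 + 1 / t) * (2 * I + 2 * F) + w0) := by
      refine mul_le_mul_of_nonneg_left ?_ hD0
      have h5 : (1 + 1 / t) * L0 ≤ (1 + 1 / t) * (2 * I + 2 * F) :=
        mul_le_mul_of_nonneg_left hL (by positivity)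
      linarith
    refine h2.trans (h3.trans (h4.trans (le_of_eq ?_)))
    rw [hX, hY]; ring
  have h5 : (X + Y / ε + 1) * I ≤ X * I + Y :=
    (mul_le_mul_of_nonneg_right hNN hI0).trans hfin
  by_contra hcon
  push Not at hcon
  have h6 : (Y / ε + 1) * ε ≤ (Y / ε + 1) * I :=
    mul_le_mul_of_nonneg_left hcon.le (by positivity)
  have h7 : (Y / ε + 1) * ε = Y + ε := by field_simp
  nlinarith

end Pool.Agent.H84.Unc.N3
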