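import Pool.Agent.H23.Unc.N3

/-!
# N3: Poincare inequality on the box from a coercivity estimate
-/

set_option autoImplicit false

open MeasureTheory Set
open scoped Pointwise

namespace Pool.Agent.H84.Unc.N3

open Pool.Agent.H84 Pool.Agent.H84.Unc

variable {n N : ℕ}

theorem sq_le_of_quad {A B P : ℝ} (h : ∀ s : ℝ, 0 ≤ s ^ 2 * A + 2 * s * P + B) :
    P ^ 2 ≤ A * B := by
  have h' : ∀ s : ℝ, 0 ≤ A * (s * s) + 2 * P * s + B := fun s => by
    have := h s
    nlinarith
  have h3 := discrim_le_zero h'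
  unfold discrim at h3
  nlinarith [h3]

/-- Cauchy-Schwarz for gradients. -/
theorem wint_cs_vec {U u g : (Fin n → ℝ) → ℝ} (hU : Continuous U) (hu : ContDiff ℝ 1 u)
    (hg : ContDiff ℝ 1 g) :
    (∫ x in QQ n, (∑ i, pd i u x * pd i g x) * Real.exp (-U x)) ^ 2 ≤
      (∫ x in QQ n, gsq u x * Real.exp (-U x)) * ∫ x in QQ n, gsq g x * Real.exp (-U x) := by
  refine sq_le_of_quad fun s => ?_
  have h1 : 0 ≤ ∫ x in QQ n, (∑ i, (s * pd i u x + pd i g x) ^ 2) * Real.exp (-U x) :=
    wint_nonneg fun x => Finset.sum_nonneg fun i _ => sq_nonneg _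
  have e : ∀ x, (∑ i, (s * pd i u x + pd i g x) ^ 2) * Real.exp (-U x) =
      ((s ^ 2 * gsq u x + 2 * s * (∑ i, pd i u x * pd i g x)) + gsq g x) * Real.exp (-U x) := by
    intro x
    congr 1
    simp only [gsq, Finset.mul_sum, ← Finset.sum_add_distrib]
    exact Finset.sum_congr rfl fun i _ => by ring
  simp_rw [e] at h1
  have c1 := gsq_continuous hu
  have c2 := gsq_continuous hg
  have c3 := gg_cont hu hg
  rw [wint_add (f := fun x => s ^ 2 * gsq u x + 2 * s * (∑ i, pd i u x * pd i g x))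
      (g := fun x => gsq g x) hU ((c1.const_mul _).add (c3.const_mul _)) c2,
    wint_add (f := fun x => s ^ 2 * gsq u x) (g := fun x => 2 * s * (∑ i, pd i u x * pd i g x))
      hU (c1.const_mul _) (c3.const_mul _), wint_smul, wint_smul] at h1
  exact h1

theorem boxPC_of_coer_of (jackson : Jackson n) {U : (Fin n → ℝ) → ℝ} (hU : ContDiff ℝ 2 U)
    {t : ℝ} (ht : 0 < t)
    (hH : HessGe U (fun _ _ => t)) {k : ℝ} (hk : 0 < k)
    (hc : ∀ (N : ℕ), ∀ u ∈ VV n N, k * ∫ x in QQ n, gsq u x * Real.exp (-U x) ≤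
      ∫ x in QQ n, (LL U u x) ^ 2 * Real.exp (-U x)) : BoxPC U (1 / k) := by
  intro f hf
  have hUc := hU.continuous
  have hU1 : ContDiff ℝ 1 U := hU.of_le (by norm_num)
  set w0 := ∫ x in QQ n, Real.exp (-U x) with hw0
  have hw0p : 0 < w0 := wint_pos n hUc
  set m := (∫ x in QQ n, f x * Real.exp (-U x)) / w0 with hm
  have hmw : m * w0 = ∫ x in QQ n, f x * Real.exp (-U x) := by rw [hm]; field_simp
  set g : (Fin n → ℝ) → ℝ := fun x => f x - m with hg
  have hg1 : ContDiff ℝ 1 g := hf.sub contDiff_const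
  have hcm : ∀ c : ℝ, ∫ x in QQ n, c * Real.exp (-U x) = c * w0 := fun c => by
    rw [integral_const_mul]
  have hg0 : ∫ x in QQ n, g x * Real.exp (-U x) = 0 := by
    rw [hg, wint_sub hUc hf.continuous continuous_const, hcm, hmw, sub_self]
  have hgg : ∀ x, gsq g x = gsq f x := fun x => by
    unfold gsq
    refine Finset.sum_congr rfl fun i _ => ?_
    rw [hg, pd_sub' (hf.differentiable (by norm_num) x) (by fun_prop), pd_const', sub_zero]
  set F := ∫ x in QQ n, g x ^ 2 * Real.exp (-U x) with hF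
  set G := ∫ x in QQ n, gsq g x * Real.exp (-U x) with hG
  have hF0 : 0 ≤ F := wint_nonneg fun x => sq_nonneg _
  have hG0 : 0 ≤ G := wint_nonneg (gsq_nonneg _)
  have hvar : (∫ x in QQ n, f x ^ 2 * Real.exp (-U x)) * w0 -
      (∫ x in QQ n, f x * Real.exp (-U x)) ^ 2 = w0 * F := by
    have e : F = (∫ x in QQ n, f x ^ 2 * Real.exp (-U x)) - 2 * m * (m * w0) + m ^ 2 * w0 := by
      have e1 : ∀ x, g x ^ 2 * Real.exp (-U x) =
          ((f x ^ 2 - 2 * m * f x) + m ^ 2) * Real.exp (-U x) := fun x => by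
        simp only [hg]; ring
      rw [hF]
      simp_rw [e1]
      rw [wint_add (f := fun x => f x ^ 2 - 2 * m * f x) (g := fun _ => m ^ 2) hUc
          ((hf.continuous.pow 2).sub (hf.continuous.const_mul _)) continuous_const,
        wint_sub (f := fun x => f x ^ 2) (g := fun x => 2 * m * f x) hUc (hf.continuous.pow 2)
          (hf.continuous.const_mul _), wint_smul, hcm, hmw]
    rw [e, ← hmw]
    ring
  rw [hvar]
  -- the estimate
  have key : ∀ ε : ℝ, 0 < ε → F ≤ ε * Real.sqrt F + Real.sqrt (G / k) * (Real.sqrt F + ε) := by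
    intro ε hε
    obtain ⟨N, u, huV, -, hu⟩ :=
      galerkin_of jackson hU ht hH hg1 hg0 (ε := ε ^ 2) (by positivity)
    have hu2 : ContDiff ℝ 2 u := by exact_mod_cast VV_contDiff huV 2
    have hu1 : ContDiff ℝ 1 u := VV_cd1 huV
    have hLc := LL_cont hU1 hu2
    have hRc : Continuous fun x => LL U u x + g x := hLc.add hg1.continuous
    set I := ∫ x in QQ n, (LL U u x + g x) ^ 2 * Real.exp (-U x) with hI
    have hI0 : 0 ≤ I := wint_nonneg fun x => sq_nonneg _
    set P := ∫ x in QQ n, (g x * (LL U u x + g x)) * Real.exp (-U x) with hP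
    set G1 := ∫ x in QQ n, gsq u x * Real.exp (-U x) with hG1
    set S := ∫ x in QQ n, (∑ i, pd i u x * pd i g x) * Real.exp (-U x) with hS
    set L0 := ∫ x in QQ n, (LL U u x) ^ 2 * Real.exp (-U x) with hL0
    have hG10 : 0 ≤ G1 := wint_nonneg (gsq_nonneg _)
    have hL00 : 0 ≤ L0 := wint_nonneg fun x => sq_nonneg _
    -- F = P + S
    have hFPS : F = P + S := by
      have h1 := box_green hU1 hu2 (VV_neum huV) hg1
      have e : ∀ x, g x ^ 2 * Real.exp (-U x) =
          (g x * (LL U u x + g x) - LL U u x * g x) * Real.exp (-U x) := fun x => by ring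
      rw [hF]
      simp_rw [e]
      rw [wint_sub (f := fun x => g x * (LL U u x + g x)) (g := fun x => LL U u x * g x) hUc
        (hg1.continuous.mul hRc) (hLc.mul hg1.continuous), h1]
      ring
    -- L0 = I - 2 P + F
    have hL0' : L0 = I - 2 * P + F := by
      have e : ∀ x, (LL U u x) ^ 2 * Real.exp (-U x) =
          (((LL U u x + g x) ^ 2 - 2 * (g x * (LL U u x + g x))) + g x ^ 2) *
            Real.exp (-U x) := fun x => by ring
      rw [hL0]
      simp_rw [e]
      rw [wint_add (f := fun x => (LL U u x + g x) ^ 2 - 2 * (g x * (LL U u x + g x)))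
          (g := fun x => g x ^ 2) hUc ((hRc.pow 2).sub ((hg1.continuous.mul hRc).const_mul _))
          (hg1.continuous.pow 2),
        wint_sub (f := fun x => (LL U u x + g x) ^ 2) (g := fun x => 2 * (g x * (LL U u x + g x)))
          hUc (hRc.pow 2) ((hg1.continuous.mul hRc).const_mul _), wint_smul]
    have hP2 : |P| ≤ Real.sqrt F * ε := by
      have h1 := wint_cs hUc hg1.continuous hRc
      have h2 : P ^ 2 ≤ (Real.sqrt F * ε) ^ 2 := by
        rw [mul_pow, Real.sq_sqrt hF0]
        exact h1.trans (mul_le_mul_of_nonneg_left hu hF0)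
      exact abs_le_of_sq_le_sq h2 (by positivity)
    have hL1 : L0 ≤ (Real.sqrt F + ε) ^ 2 := by
      have h1 := (abs_le.1 hP2).1
      have h2 := Real.sq_sqrt hF0
      nlinarith
    have hG1' : G1 ≤ (Real.sqrt F + ε) ^ 2 / k := by
      rw [le_div_iff₀ hk]
      have := hc N u huV
      linarith
    have hS2 : S ≤ Real.sqrt (G / k) * (Real.sqrt F + ε) := by
      have h1 := wint_cs_vec hUc hu1 hg1
      have h2 : S ^ 2 ≤ (Real.sqrt (G / k) * (Real.sqrt F + ε)) ^ 2 := by
        rw [mul_pow, Real.sq_sqrt (by positivity)]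
        refine h1.trans ((mul_le_mul_of_nonneg_right hG1' hG0).trans (le_of_eq ?_))
        ring
      exact (le_abs_self S).trans (abs_le_of_sq_le_sq h2 (by positivity))
    have h3 := (abs_le.1 hP2).2
    linarith
  have hFG : F ≤ G / k := by
    set a := Real.sqrt F with ha
    set b := Real.sqrt (G / k) with hb
    have ha0 : 0 ≤ a := Real.sqrt_nonneg _
    have hb0 : 0 ≤ b := Real.sqrt_nonneg _
    have ha2 : a ^ 2 = F := Real.sq_sqrt hF0
    have hb2 : b ^ 2 = G / k := Real.sq_sqrt (by positivity)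
    rw [← ha2, ← hb2]
    by_contra hcon
    push Not at hcon
    have hab : b < a := by nlinarith
    have hpos : 0 < a := lt_of_le_of_lt hb0 hab
    have hε : 0 < a * (a - b) / (2 * (a + b)) := by
      have : 0 < a - b := by linarith
      positivity
    have h1 := key _ hε
    have h2 : a * (a - b) / (2 * (a + b)) * (a + b) = a * (a - b) / 2 := by
      field_simp
    nlinarith
  have hGf : G = ∫ x in QQ n, gsq f x * Real.exp (-U x) := by
    rw [hG]
    exact integral_congr_ae (ae_of_all _ fun x => by simp only [hgg])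
  rw [← hGf]
  calc w0 * F ≤ w0 * (G / k) := mul_le_mul_of_nonneg_left hFG hw0p.le
    _ = 1 / k * (G * w0) := by ring

theorem boxPC_hess_of (jackson : Jackson n) {U : (Fin n → ℝ) → ℝ} (hU : ContDiff ℝ 2 U) {t : ℝ}
    (ht : 0 < t) (hH : HessGe U (fun _ _ => t)) : BoxPC U (1 / t) := by
  refine boxPC_of_coer_of jackson hU ht hH ht fun N u hu => ?_
  have hu3 : ContDiff ℝ 3 u := by exact_mod_cast VV_contDiff hu 3
  have h1 := bochner_ge hU hH hu3 (VV_neum hu)
  have h2 : 0 ≤ ∫ x in QQ n, (∑ i, gsq (pd i u) x) * Real.exp (-U x) :=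
    wint_nonneg fun x => Finset.sum_nonneg fun i _ => gsq_nonneg _ _
  linarith

end Pool.Agent.H84.Unc.N3
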